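import Pool.Agent.R276.TH.AV

set_option autoImplicit false

noncomputable section

namespace Pool.Agent.R276.TH

open MeasureTheory AddCircle Set Filter Topology Metric
open scoped ENNReal NNReal
open Pool.Agent.Y283.TO

namespace AE

open AV

section
variable {Y : Type} [NormedAddCommGroup Y] [NormedSpace ℂ Y] {e : ℕ → Y} {ε₀ : Y →L[ℂ] ℂ}
    {T H : CT → (Y →L[ℂ] Y)} {s : ℤ} {κ : ℂ}

theorem key (hS : THS e ε₀ T H s) (hadm : Adm s κ) (A : CT → (Y →L[ℂ] Y))
    (hA : ∀ a, A a = T a + κ • H a) (k : ℤ) (m n : ℕ) :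
    A (fourier k) (up e ((m:ℤ) + n) + κ • up e ((m:ℤ) - n - s) + up e (-(m:ℤ) + n)) =
      (up e (k + m + n) + κ • up e (k + m - n - s)) +
      (up e (k + -(m:ℤ) + n) + κ • up e (k + -(m:ℤ) - n - s)) := by
  have hs := adm_s hadm
  have hk2 : κ * κ = 1 := by
    rcases hadm with ⟨_, h | h⟩ | ⟨_, h⟩ <;> rw [h] <;> norm_num
  rw [map_add, map_add, map_smul, actup hS A hA k ((m:ℤ) + n) (by omega)]
  rw [show k + ((m:ℤ) + n) = k + m + n by ring, show k - ((m:ℤ) + n) - s = k + -(m:ℤ) - n - s by ring]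
  rcases le_or_gt m n with h | h
  · rw [up_neg ((m:ℤ) - n - s) (by omega), map_zero, smul_zero,
      actup hS A hA k (-(m:ℤ) + n) (by omega)]
    rw [show k + (-(m:ℤ) + n) = k + -(m:ℤ) + n by ring,
      show k - (-(m:ℤ) + n) - s = k + m - n - s by ring]
    abel
  · rw [up_neg (-(m:ℤ) + n) (by omega), map_zero]
    rcases le_or_gt 0 ((m:ℤ) - n - s) with h2 | h2
    · rw [actup hS A hA k ((m:ℤ) - n - s) h2, smul_add, smul_smul, hk2, one_smul]
      rw [show k + ((m:ℤ) - n - s) = k + m - n - s by ring,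
        show k - ((m:ℤ) - n - s) - s = k + -(m:ℤ) + n by ring]
      abel
    · rw [up_neg ((m:ℤ) - n - s) h2, map_zero, smul_zero]
      rcases hadm with ⟨h3, _⟩ | ⟨h3, h4⟩
      · omega
      · have h5 : (m:ℤ) = n + 1 := by omega
        rw [h3, h4, h5]
        rw [show k + -((n:ℤ) + 1) + n = k - 1 by ring, show k + ((n:ℤ) + 1) - n - 2 = k - 1 by ring,
          neg_one_smul, neg_one_smul]
        abel

end

theorem main : S_AE := by
  intro Y _ _ e ε₀ T H s κ hS hadm A hA c hc f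
  have hs := adm_s hadm
  have h1 := A_one hS hs A hA
  obtain ⟨Ac, hAc⟩ := exists_clm hS A hA
  set L : CT →L[ℂ] (CT →L[ℂ] (Y →L[ℂ] Y)) :=
    ((ContinuousLinearMap.compL ℂ CT CT (Y →L[ℂ] Y) Ac).comp (ContinuousLinearMap.mul ℂ CT)) -
    (((ContinuousLinearMap.compL ℂ CT (Y →L[ℂ] Y) (Y →L[ℂ] Y)).flip Ac).comp
      ((ContinuousLinearMap.mul ℂ (Y →L[ℂ] Y)).flip.comp Ac)) with hL
  have hLf : ∀ v f, L v f = A (v * f) - A f * A v := by
    intro v f
    rw [← hAc, ← hAc, ← hAc]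
    rfl
  have hsum : HasSum (fun n : ℕ => c n • ((fourier (n : ℤ) : CT) + fourier (-(n : ℤ))))
      (ps c + psm c) := by
    have h2 := (hasSum_ps c hc).add (Pool.Agent.R276.SI.Alg.hasSum_psm c hc)
    have e : (fun n : ℕ => c n • ((fourier (n : ℤ) : CT) + fourier (-(n : ℤ)))) =
        fun n : ℕ => c n • (fourier (n : ℤ) : CT) + c n • (fourier (-(n : ℤ)) : CT) :=
      funext fun n => ContinuousMap.ext fun t => mul_add (c n) ((fourier (n : ℤ) : CT) t)
        ((fourier (-(n : ℤ)) : CT) t)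
    rw [e]
    exact h2
  have h := Pool.Agent.R276.SI.Alg.exp_of_closed (Y := CT →L[ℂ] (Y →L[ℂ] Y)) L
    (g := fun n : ℕ => (fourier (n : ℤ) : CT) + fourier (-(n : ℤ))) ?_ ?_ ?_ hsum
  · have h2 : L (cexp (ps c + psm c)) f = 0 := by rw [h]; rfl
    rw [hLf] at h2
    rw [mul_comm]
    exact sub_eq_zero.1 h2
  · ext1 f
    rw [hLf, h1, one_mul, mul_one, sub_self]
    rfl
  · intro f g hf hg
    have hf' : ∀ h, A (f * h) = A h * A f := fun h => by
      have h2 : L f h = 0 := by rw [hf]; rfl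
      rw [hLf] at h2
      exact sub_eq_zero.1 h2
    have hg' : ∀ h, A (g * h) = A h * A g := fun h => by
      have h2 : L g h = 0 := by rw [hg]; rfl
      rw [hLf] at h2
      exact sub_eq_zero.1 h2
    ext1 h
    rw [hLf, mul_assoc f g h, hf', hg', hf', mul_assoc, sub_self]
    rfl
  · intro m
    refine extf _ _ fun k => ?_
    rw [hLf]
    show _ = (0 : Y →L[ℂ] Y)
    rw [sub_eq_zero, add_mul, fmul, fmul]
    refine ext' hS _ _ fun n => ?_
    have hadd : ∀ a b, A (a + b) = A a + A b := by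
      intro a b
      rw [← hAc, ← hAc, ← hAc, map_add]
    rw [hadd, hadd]
    show A (fourier ((m : ℤ) + k)) (e n) + A (fourier (-(m : ℤ) + k)) (e n) =
      A (fourier k) (A (fourier (m : ℤ)) (e n) + A (fourier (-(m : ℤ))) (e n))
    rw [act hS A hA, act hS A hA, act hS A hA, act hS A hA,
      up_neg (-(m:ℤ) - n - s) (by omega), smul_zero, add_zero, key hS hadm A hA k m n,
      add_comm (m:ℤ) k, add_comm (-(m:ℤ)) k]

end AE

end Pool.Agent.R276.TH
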