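import Pool.Agent.R276.TH.Stm

/-! TH-AK: cokernel (helper700). -/

set_option autoImplicit false

noncomputable section

namespace Pool.Agent.R276.TH

open MeasureTheory AddCircle Set Filter Topology Metric
open scoped ENNReal NNReal
open Pool.Agent.Y283.TO

namespace AK

theorem phi_up {Y : Type} [NormedAddCommGroup Y] [NormedSpace ℂ Y] (e : ℕ → Y) (ε₀ : Y →L[ℂ] ℂ)
    (T H : CT → (Y →L[ℂ] Y)) (s : ℤ) (h : THS e ε₀ T H s) (m : ℕ) (j : ℤ) :
    ε₀ (T (fourier (-(m : ℤ))) (up e j)) = if j = m then 1 else 0 := by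
  by_cases hj : 0 ≤ j
  · have h1 : up e j = e j.toNat := by rw [up, if_pos hj]
    rw [h1, h.Tact, up]
    by_cases h0 : 0 ≤ -(m : ℤ) + (j.toNat : ℤ)
    · rw [if_pos h0, h.coord]
      by_cases h2 : j = m
      · rw [if_pos h2, if_pos (by omega)]
      · rw [if_neg h2, if_neg (by omega)]
    · rw [if_neg h0, map_zero, if_neg (by omega)]
  · rw [up, if_neg hj, map_zero, map_zero, if_neg (by omega)]

theorem up_natCast {Y : Type} [NormedAddCommGroup Y] (e : ℕ → Y) (n : ℕ) : up e (n : ℤ) = e n := by
  rw [up, if_pos (by omega), Int.toNat_natCast]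

theorem main : S_AK := by
  intro Y _ _ e ε₀ T H s κ h hadm A hA k hk
  have hphi := phi_up e ε₀ T H s h
  obtain ⟨K, rfl⟩ : ∃ K : ℕ, k = (K : ℤ) := ⟨k.toNat, by omega⟩
  have hK : 1 ≤ K := by omega
  have hAe : ∀ n : ℕ, A (fourier (K : ℤ)) (e n) = up e ((K : ℤ) + n) + κ • up e ((K : ℤ) - n - s) := by
    intro n
    rw [hA, ContinuousLinearMap.add_apply, ContinuousLinearMap.smul_apply, h.Tact, h.Hact]
  have hκ : κ * κ = 1 := by
    rcases hadm with ⟨_, h1 | h1⟩ | ⟨_, h1⟩ <;> rw [h1] <;> ring
  rcases hadm with ⟨hs, _⟩ | ⟨hs, _⟩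
  · refine ⟨ε₀.comp (T (fourier (-(K : ℤ)))) - κ • ε₀.comp (T (fourier (-((K - 1 : ℕ) : ℤ)))), ?_, ?_⟩
    · intro h0
      have h1 := congrArg (fun f : Y →L[ℂ] ℂ => f (e K)) h0
      simp only [ContinuousLinearMap.sub_apply, ContinuousLinearMap.smul_apply,
        ContinuousLinearMap.comp_apply, ContinuousLinearMap.zero_apply] at h1
      rw [← up_natCast e K, hphi, hphi, if_pos rfl, if_neg (by omega)] at h1
      simp at h1
    · refine ContinuousLinearMap.ext_on h.dense ?_
      rintro _ ⟨n, rfl⟩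
      simp only [ContinuousLinearMap.sub_apply, ContinuousLinearMap.smul_apply,
        ContinuousLinearMap.comp_apply, ContinuousLinearMap.zero_apply]
      rw [hAe n]
      simp only [map_add, map_smul, hphi]
      by_cases hn : n = 0
      · subst hn
        rw [if_pos (by omega), if_neg (by omega), if_neg (by omega), if_pos (by omega)]
        simp only [smul_eq_mul]
        linear_combination -hκ
      · rw [if_neg (by omega), if_neg (by omega), if_neg (by omega), if_neg (by omega)]
        simp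
  · refine ⟨ε₀.comp (T (fourier (-((K - 1 : ℕ) : ℤ)))), ?_, ?_⟩
    · intro h0
      have h1 := congrArg (fun f : Y →L[ℂ] ℂ => f (e (K - 1))) h0
      simp only [ContinuousLinearMap.comp_apply, ContinuousLinearMap.zero_apply] at h1
      rw [← up_natCast e (K - 1), hphi, if_pos rfl] at h1
      simp at h1
    · refine ContinuousLinearMap.ext_on h.dense ?_
      rintro _ ⟨n, rfl⟩
      simp only [ContinuousLinearMap.comp_apply, ContinuousLinearMap.zero_apply]
      rw [hAe n]
      simp only [map_add, map_smul, hphi]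
      rw [if_neg (by omega), if_neg (by omega)]
      simp

end AK

end Pool.Agent.R276.TH
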