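import Pool.Agent.R276.TH.Stm
import Pool.Agent.R276.SI.Alg

set_option autoImplicit false

noncomputable section

namespace Pool.Agent.R276.TH

open MeasureTheory AddCircle Set Filter Topology Metric
open scoped ENNReal NNReal
open Pool.Agent.Y283.TO

namespace AV

section
variable {Y : Type} [NormedAddCommGroup Y] [NormedSpace ℂ Y] {e : ℕ → Y} {ε₀ : Y →L[ℂ] ℂ}
    {T H : CT → (Y →L[ℂ] Y)} {s : ℤ} {κ : ℂ}

/-- `A` as a continuous linear map -/
theorem exists_clm (hS : THS e ε₀ T H s) (A : CT → (Y →L[ℂ] Y)) (hA : ∀ a, A a = T a + κ • H a) :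
    ∃ Ac : CT →L[ℂ] (Y →L[ℂ] Y), ∀ a, Ac a = A a := by
  obtain ⟨K, hK0, hK⟩ := hS.bound
  refine ⟨LinearMap.mkContinuous ⟨⟨A, fun a b => ?_⟩, fun c a => ?_⟩ (K + ‖κ‖ * K) (fun a => ?_),
    fun a => rfl⟩
  · rw [hA, hA, hA, hS.Tadd, hS.Hadd, smul_add]; abel
  · show A (c • a) = c • A a
    rw [hA, hA, hS.Tsmul, hS.Hsmul, smul_add, smul_comm κ c]
  · show ‖A a‖ ≤ _
    rw [hA]
    refine le_trans (norm_add_le _ _) ?_
    rw [norm_smul, add_mul, mul_assoc]
    exact add_le_add (hK a).1 (mul_le_mul_of_nonneg_left (hK a).2 (norm_nonneg _))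

theorem act (hS : THS e ε₀ T H s) (A : CT → (Y →L[ℂ] Y)) (hA : ∀ a, A a = T a + κ • H a)
    (m : ℤ) (n : ℕ) : A (fourier m) (e n) = up e (m + n) + κ • up e (m - n - s) := by
  rw [hA]
  show T (fourier m) (e n) + κ • H (fourier m) (e n) = _
  rw [hS.Tact, hS.Hact]

theorem up_neg (j : ℤ) (h : j < 0) : up e j = 0 := by
  unfold up
  rw [if_neg (by omega)]

theorem up_nn (n : ℕ) : up e (n : ℤ) = e n := by
  unfold up
  rw [if_pos (by omega), Int.toNat_natCast]

theorem actup (hS : THS e ε₀ T H s) (A : CT → (Y →L[ℂ] Y)) (hA : ∀ a, A a = T a + κ • H a)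
    (m j : ℤ) (hj : 0 ≤ j) : A (fourier m) (up e j) = up e (m + j) + κ • up e (m - j - s) := by
  obtain ⟨n, rfl⟩ := Int.eq_ofNat_of_zero_le hj
  rw [up_nn]
  exact act hS A hA m n

theorem ext' (hS : THS e ε₀ T H s) (A B : Y →L[ℂ] Y) (h : ∀ n, A (e n) = B (e n)) : A = B := by
  refine ContinuousLinearMap.ext_on hS.dense ?_
  rintro _ ⟨n, rfl⟩
  exact h n

theorem extf {Z : Type} [NormedAddCommGroup Z] [NormedSpace ℂ Z] (L L' : CT →L[ℂ] Z)
    (h : ∀ k : ℤ, L (fourier k) = L' (fourier k)) : L = L' := by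
  refine ContinuousLinearMap.ext_on (s := Set.range (fun n : ℤ => (fourier n : CT))) ?_ ?_
  · rw [Submodule.dense_iff_topologicalClosure_eq_top]
    exact span_fourier_closure_eq_top
  · rintro _ ⟨m, rfl⟩
    exact h m

theorem fmul (a b : ℤ) : (fourier a : CT) * fourier b = fourier (a + b) := by
  ext t
  exact fourier_add.symm

theorem adm_s (h : Adm s κ) : 1 ≤ s := by
  rcases h with ⟨h, _⟩ | ⟨h, _⟩ <;> omega

theorem A_one (hS : THS e ε₀ T H s) (hs : 1 ≤ s) (A : CT → (Y →L[ℂ] Y))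
    (hA : ∀ a, A a = T a + κ • H a) : A 1 = 1 := by
  have h1 : (1 : CT) = fourier 0 := by
    ext t; simp
  rw [h1]
  refine ext' hS _ _ fun n => ?_
  rw [act hS A hA, up_neg _ (by omega : (0:ℤ) - n - s < 0), zero_add, up_nn, smul_zero, add_zero]
  rfl

end

theorem main : S_AV := by
  intro Y _ _ e ε₀ T H s κ hS hadm A hA
  have hs := adm_s hadm
  have h1 := A_one hS hs A hA
  obtain ⟨Ac, hAc⟩ := exists_clm hS A hA
  refine ⟨h1, ?_, ?_⟩
  · set L : CT →L[ℂ] (CT →L[ℂ] (Y →L[ℂ] Y)) :=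
      ((ContinuousLinearMap.compL ℂ CT CT (Y →L[ℂ] Y) Ac).comp (ContinuousLinearMap.mul ℂ CT)) -
      (((ContinuousLinearMap.compL ℂ CT (Y →L[ℂ] Y) (Y →L[ℂ] Y)).flip Ac).comp
        ((ContinuousLinearMap.mul ℂ (Y →L[ℂ] Y)).comp Ac)) with hL
    have hLf : ∀ v f, L v f = A (v * f) - A v * A f := by
      intro v f
      rw [← hAc, ← hAc, ← hAc]
      rfl
    intro d hd f
    have h := Pool.Agent.R276.SI.Alg.exp_of_closed (Y := CT →L[ℂ] (Y →L[ℂ] Y)) L
      (g := fun n : ℕ => (fourier (-(n : ℤ)) : CT)) ?_ ?_ ?_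
      (Pool.Agent.R276.SI.Alg.hasSum_psm d hd)
    · have h2 : L (cexp (psm d)) f = 0 := by rw [h]; rfl
      rw [hLf] at h2
      exact sub_eq_zero.1 h2
    · ext1 f
      rw [hLf, h1, one_mul, one_mul, sub_self]
      rfl
    · intro f g hf hg
      have hf' : ∀ h, A (f * h) = A f * A h := fun h => by
        have h2 : L f h = 0 := by rw [hf]; rfl
        rw [hLf] at h2
        exact sub_eq_zero.1 h2
      have hg' : ∀ h, A (g * h) = A g * A h := fun h => by
        have h2 : L g h = 0 := by rw [hg]; rfl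
        rw [hLf] at h2
        exact sub_eq_zero.1 h2
      ext1 h
      rw [hLf, mul_assoc f g h, hf', hg', hf', mul_assoc, sub_self]
      rfl
    · intro m
      refine extf _ _ fun k => ?_
      rw [hLf]
      show _ = (0 : Y →L[ℂ] Y)
      rw [sub_eq_zero, fmul]
      refine ext' hS _ _ fun n => ?_
      show A (fourier (-(m : ℤ) + k)) (e n) = A (fourier (-(m : ℤ))) (A (fourier k) (e n))
      have hup : ∀ j : ℤ, A (fourier (-(m : ℤ))) (up e j) = up e (j - m) := by
        intro j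
        rcases lt_or_ge j 0 with hj | hj
        · rw [up_neg j hj, map_zero, up_neg _ (by omega)]
        · rw [actup hS A hA _ _ hj, up_neg (-(m:ℤ) - j - s) (by omega), smul_zero, add_zero]
          congr 1; ring
      rw [act hS A hA, act hS A hA, map_add, map_smul, hup, hup]
      congr 2
      · ring
      · congr 1; ring
  · intro k hk
    rw [act hS A hA, up_neg _ (by simpa using hk), up_neg _ (by push_cast; omega), smul_zero,
      add_zero]

end AV

end Pool.Agent.R276.TH
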