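import Pool.Agent.R276.TH.Stm
import Pool.Agent.R276.SI.Ess

/-!
# TH-ESS (MP_5ac32f_an): the values of the symbol are in the spectrum (helper611)
-/

set_option autoImplicit false

noncomputable section

namespace Pool.Agent.R276.TH.ESS

open MeasureTheory AddCircle Set Filter Topology Metric
open scoped ENNReal NNReal
open Pool.Agent.Y283.TO Pool.Agent.R276.TH
open Pool.Agent.R276.SI.Ess (TP dense_four eq_zero_of_ft)

variable {Y : Type} [NormedAddCommGroup Y] [NormedSpace ℂ Y] {e : ℕ → Y} {ε₀ : Y →L[ℂ] ℂ}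
  {T H : CT → (Y →L[ℂ] Y)} {s : ℤ}

/-- `T` as a linear map -/
def TL (hS : THS e ε₀ T H s) : CT →ₗ[ℂ] (Y →L[ℂ] Y) where
  toFun := T
  map_add' := hS.Tadd
  map_smul' := hS.Tsmul

/-- `H` as a linear map -/
def HL (hS : THS e ε₀ T H s) : CT →ₗ[ℂ] (Y →L[ℂ] Y) where
  toFun := H
  map_add' := hS.Hadd
  map_smul' := hS.Hsmul

/-- `T` as a continuous linear map -/
def Tc (hS : THS e ε₀ T H s) : CT →L[ℂ] (Y →L[ℂ] Y) :=
  LinearMap.mkContinuous (TL hS) hS.bound.choose (fun a => (hS.bound.choose_spec.2 a).1)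

theorem T_sub (hS : THS e ε₀ T H s) (a b : CT) : T (a - b) = T a - T b := (TL hS).map_sub a b

theorem T_zero (hS : THS e ε₀ T H s) : T 0 = 0 := (TL hS).map_zero

theorem H_sub (hS : THS e ε₀ T H s) (a b : CT) : H (a - b) = H a - H b := (HL hS).map_sub a b

theorem H_zero (hS : THS e ε₀ T H s) : H 0 = 0 := (HL hS).map_zero

theorem ext' (hS : THS e ε₀ T H s) (A B : Y →L[ℂ] Y) (h : ∀ n, A (e n) = B (e n)) : A = B := by
  refine ContinuousLinearMap.ext_on hS.dense ?_
  rintro _ ⟨n, rfl⟩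
  exact h n

theorem extF {Z : Type} [NormedAddCommGroup Z] [NormedSpace ℂ Z] (L₁ L₂ : CT →L[ℂ] Z)
    (h : ∀ m : ℤ, L₁ (fourier m) = L₂ (fourier m)) : L₁ = L₂ := by
  refine ContinuousLinearMap.ext_on (s := Set.range (fun n : ℤ => (fourier n : CT))) ?_ ?_
  · rw [Submodule.dense_iff_topologicalClosure_eq_top]
    exact span_fourier_closure_eq_top
  · rintro _ ⟨m, rfl⟩
    exact h m

theorem T_up (hS : THS e ε₀ T H s) (m j : ℤ) (hj : 0 ≤ j) :
    T (fourier m) (up e j) = up e (m + j) := by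
  have h1 : up e j = e j.toNat := by unfold up; rw [if_pos hj]
  rw [h1, hS.Tact, Int.toNat_of_nonneg hj]

omit [NormedSpace ℂ Y] in
theorem up_neg (j : ℤ) (hj : j < 0) : up e j = 0 := by
  unfold up
  rw [if_neg (by omega)]

theorem T_an (hS : THS e ε₀ T H s) (n : ℤ) (hn : 0 ≤ n) (f : CT) :
    T (f * fourier n) = T f * T (fourier n) := by
  have h := extF ((Tc hS).comp ((ContinuousLinearMap.mul ℂ CT).flip (fourier n)))
    (((ContinuousLinearMap.mul ℂ (Y →L[ℂ] Y)).flip (T (fourier n))).comp (Tc hS)) ?_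
  · exact congrArg (fun L : CT →L[ℂ] (Y →L[ℂ] Y) => L f) h
  · intro k
    change T (fourier k * fourier n) = T (fourier k) * T (fourier n)
    rw [← fourier_add_eq]
    refine ext' hS _ _ fun j => ?_
    rw [ContinuousLinearMap.mul_apply, hS.Tact, hS.Tact, T_up hS _ _ (by omega), add_assoc]

theorem T_co (hS : THS e ε₀ T H s) (n : ℤ) (hn : 0 ≤ n) (f : CT) :
    T (fourier (-n) * f) = T (fourier (-n)) * T f := by
  have h := extF ((Tc hS).comp (ContinuousLinearMap.mul ℂ CT (fourier (-n))))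
    ((ContinuousLinearMap.mul ℂ (Y →L[ℂ] Y) (T (fourier (-n)))).comp (Tc hS)) ?_
  · exact congrArg (fun L : CT →L[ℂ] (Y →L[ℂ] Y) => L f) h
  · intro k
    change T (fourier (-n) * fourier k) = T (fourier (-n)) * T (fourier k)
    rw [← fourier_add_eq]
    refine ext' hS _ _ fun j => ?_
    rw [ContinuousLinearMap.mul_apply, hS.Tact, hS.Tact]
    rcases le_or_gt 0 (k + (j : ℤ)) with h | h
    · rw [T_up hS _ _ h, add_assoc]
    · rw [up_neg _ h, map_zero, up_neg]
      omega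

theorem T_one (hS : THS e ε₀ T H s) : T 1 = 1 := by
  rw [← fourier_zero_eq]
  refine ext' hS _ _ fun n => ?_
  rw [hS.Tact, zero_add, ContinuousLinearMap.one_apply]
  unfold up
  rw [if_pos (Int.natCast_nonneg n), Int.toNat_natCast]

theorem coef (hS : THS e ε₀ T H s) (f : CT) : ε₀ (T f (e 0)) = ft 0 f := by
  have h := extF (ε₀.comp ((ContinuousLinearMap.apply ℂ Y (e 0)).comp (Tc hS))) (ft 0) ?_
  · exact congrArg (fun L : CT →L[ℂ] ℂ => L f) h
  · intro m
    change ε₀ (T (fourier m) (e 0)) = ft 0 (fourier m)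
    rw [hS.Tact, ft_fourier]
    rcases lt_trichotomy m 0 with h | h | h
    · rw [up_neg _ (by push_cast; omega), map_zero, if_neg (by omega)]
    · subst h
      rw [if_pos rfl]
      unfold up
      simp [hS.coord]
    · unfold up
      rw [if_pos (by push_cast; omega), hS.coord, if_neg (by push_cast; omega),
        if_neg (by omega)]

theorem dens (a b : ℕ → CT → ℝ) (c : ℝ) (hc : 0 ≤ c)
    (ha : ∀ N f g, |a N f - a N g| ≤ c * ‖f - g‖) (hb : ∀ N f g, |b N f - b N g| ≤ c * ‖f - g‖)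
    (hTP : ∀ h ∈ TP, ∀ δ : ℝ, 0 < δ → ∀ᶠ N in atTop, a N h ≤ b N h + δ)
    (f : CT) (δ : ℝ) (hδ : 0 < δ) : ∀ᶠ N in atTop, a N f ≤ b N f + δ := by
  obtain ⟨h, hh, hfh⟩ := dense_four.exists_dist_lt f
    (show 0 < δ / (3 * (c + 1)) by positivity)
  rw [dist_eq_norm] at hfh
  have h3 : c * ‖f - h‖ ≤ δ / 3 := by
    calc c * ‖f - h‖ ≤ (c + 1) * (δ / (3 * (c + 1))) := by
          apply mul_le_mul (by linarith) hfh.le (norm_nonneg _) (by linarith)
      _ = δ / 3 := by
          field_simp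
  filter_upwards [hTP h hh (δ / 3) (by positivity)] with N hN
  have h1 := ha N f h
  have h2 := hb N f h
  rw [abs_le] at h1 h2
  linarith [h1.1, h1.2, h2.1, h2.2]

theorem mulTP (hS : THS e ε₀ T H s) (h : CT) (hh : h ∈ TP) : ∀ᶠ N : ℕ in atTop, ∀ g : CT,
    T (fourier (N : ℤ) * (g * h)) (e 0) = T g (T (fourier (N : ℤ) * h) (e 0)) := by
  induction hh using Submodule.span_induction with
  | mem x hx =>
    obtain ⟨m, rfl⟩ := hx
    filter_upwards [eventually_ge_atTop (-m).toNat] with N hN g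
    have hNm : 0 ≤ (N : ℤ) + m := by omega
    have e1 : (fourier (N : ℤ) * (g * fourier m) : CT) = g * fourier ((N : ℤ) + m) := by
      rw [fourier_add_eq]; ring
    rw [e1, T_an hS _ hNm, ← fourier_add_eq, ContinuousLinearMap.mul_apply]
  | zero =>
    refine Eventually.of_forall fun N g => ?_
    rw [mul_zero, mul_zero, T_zero hS]
    simp
  | add x y _ _ hx hy =>
    filter_upwards [hx, hy] with N h1 h2 g
    rw [mul_add, mul_add, mul_add, hS.Tadd, hS.Tadd, ContinuousLinearMap.add_apply,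
      ContinuousLinearMap.add_apply, map_add, h1, h2]
  | smul c x _ hx =>
    filter_upwards [hx] with N h1 g
    rw [mul_smul_comm, mul_smul_comm, mul_smul_comm, hS.Tsmul, hS.Tsmul,
      ContinuousLinearMap.smul_apply, ContinuousLinearMap.smul_apply, map_smul, h1]

theorem HzeroM (hS : THS e ε₀ T H s) (m : ℤ) (h : CT) (hh : h ∈ TP) : ∀ᶠ N : ℕ in atTop,
    H (fourier m) (T (fourier (N : ℤ) * h) (e 0)) = 0 := by
  induction hh using Submodule.span_induction with
  | mem x hx =>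
    obtain ⟨j, rfl⟩ := hx
    filter_upwards [eventually_ge_atTop ((-j).toNat + (m - s - j).toNat + 1)] with N hN
    rw [← fourier_add_eq, hS.Tact]
    have h1 : up e ((N : ℤ) + j + ((0 : ℕ) : ℤ)) = e ((N : ℤ) + j).toNat := by
      unfold up
      rw [if_pos (by push_cast; omega)]
      congr 2
      push_cast; omega
    rw [h1, hS.Hact, up_neg]
    omega
  | zero =>
    refine Eventually.of_forall fun N => ?_
    rw [mul_zero, T_zero hS]
    simp
  | add x y _ _ hx hy =>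
    filter_upwards [hx, hy] with N h1 h2
    rw [mul_add, hS.Tadd, ContinuousLinearMap.add_apply, map_add, h1, h2, add_zero]
  | smul c x _ hx =>
    filter_upwards [hx] with N h1
    rw [mul_smul_comm, hS.Tsmul, ContinuousLinearMap.smul_apply, map_smul, h1, smul_zero]

theorem HzeroTP (hS : THS e ε₀ T H s) (a : CT) (ha : a ∈ TP) (h : CT) (hh : h ∈ TP) :
    ∀ᶠ N : ℕ in atTop, H a (T (fourier (N : ℤ) * h) (e 0)) = 0 := by
  induction ha using Submodule.span_induction with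
  | mem x hx =>
    obtain ⟨m, rfl⟩ := hx
    exact HzeroM hS m h hh
  | zero =>
    refine Eventually.of_forall fun N => ?_
    rw [H_zero hS]
    simp
  | add x y _ _ hx hy =>
    filter_upwards [hx, hy] with N h1 h2
    rw [hS.Hadd, ContinuousLinearMap.add_apply, h1, h2, add_zero]
  | smul c x _ hx =>
    filter_upwards [hx] with N h1
    rw [hS.Hsmul, ContinuousLinearMap.smul_apply, h1, smul_zero]

theorem fnorm (n : ℤ) (f : CT) : ‖fourier n * f‖ ≤ ‖f‖ := by
  calc ‖fourier n * f‖ ≤ ‖(fourier n : CT)‖ * ‖f‖ := norm_mul_le _ _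
    _ = ‖f‖ := by rw [fourier_norm, one_mul]

/-- TH-ESS -/
theorem main : S_ESS := by
  intro Y _ _ _ e ε₀ T H s κ hS a z hz t0 ht0
  obtain ⟨K, hK0, hK⟩ := hS.bound
  rw [spectrum.mem_resolventSet_iff] at hz
  obtain ⟨R, hR⟩ := hz
  set A : Y →L[ℂ] Y := T a + κ • H a with hA
  set C : ℝ := ‖(↑R⁻¹ : Y →L[ℂ] Y)‖ with hCdef
  have hC0 : 0 ≤ C := norm_nonneg _
  have hAb : ∀ x, ‖x‖ ≤ C * ‖z • x - A x‖ := by
    intro x
    have e1 : (↑R⁻¹ : Y →L[ℂ] Y) (z • x - A x) = x := by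
      have e2 : z • x - A x = (R : Y →L[ℂ] Y) x := by
        rw [hR, ContinuousLinearMap.sub_apply, Algebra.algebraMap_eq_smul_one,
          ContinuousLinearMap.smul_apply, ContinuousLinearMap.one_apply]
      rw [e2, ← ContinuousLinearMap.mul_apply, Units.inv_mul, ContinuousLinearMap.one_apply]
    calc ‖x‖ = ‖(↑R⁻¹ : Y →L[ℂ] Y) (z • x - A x)‖ := by rw [e1]
      _ ≤ _ := ContinuousLinearMap.le_opNorm _ _
  set u : CT := z • 1 - a with hu
  have hTK : ∀ (g : CT) (x : Y), ‖T g x‖ ≤ K * ‖g‖ * ‖x‖ := fun g x =>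
    ((T g).le_opNorm x).trans (mul_le_mul_of_nonneg_right (hK g).1 (norm_nonneg x))
  have hHK : ∀ (g : CT) (x : Y), ‖H g x‖ ≤ K * ‖g‖ * ‖x‖ := fun g x =>
    ((H g).le_opNorm x).trans (mul_le_mul_of_nonneg_right (hK g).2 (norm_nonneg x))
  set p : ℕ → CT → ℝ := fun N f => ‖T (fourier (N : ℤ) * f) (e 0)‖ with hp
  have hpb : ∀ N f, p N f ≤ K * ‖f‖ * ‖e 0‖ := by
    intro N f
    refine (hTK _ _).trans ?_
    gcongr
    exact fnorm _ _
  have hps : ∀ N f g, |p N f - p N g| ≤ K * ‖f - g‖ * ‖e 0‖ := by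
    intro N f g
    have h1 : |p N f - p N g| ≤ p N (f - g) := by
      simp only [hp]
      rw [mul_sub, T_sub hS, ContinuousLinearMap.sub_apply]
      exact abs_norm_sub_norm_le _ _
    exact h1.trans (hpb N (f - g))
  have hp0 : ∀ N f, 0 ≤ p N f := fun N f => norm_nonneg _
  -- (2)
  have h2 : ∀ N f, ‖ft 0 f‖ ≤ ‖ε₀‖ * K * p N f := by
    intro N f
    have e1 : f = fourier (-(N : ℤ)) * (fourier (N : ℤ) * f) := by
      rw [← mul_assoc, ← fourier_add_eq, neg_add_cancel, fourier_zero_eq, one_mul]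
    have e2 : T f (e 0) = T (fourier (-(N : ℤ))) (T (fourier (N : ℤ) * f) (e 0)) := by
      rw [← ContinuousLinearMap.mul_apply, ← T_co hS _ (Int.natCast_nonneg N), ← e1]
    rw [← coef hS, e2]
    calc ‖ε₀ (T (fourier (-(N : ℤ))) (T (fourier (N : ℤ) * f) (e 0)))‖
        ≤ ‖ε₀‖ * ‖T (fourier (-(N : ℤ))) (T (fourier (N : ℤ) * f) (e 0))‖ :=
          ContinuousLinearMap.le_opNorm _ _
      _ ≤ ‖ε₀‖ * (K * ‖(fourier (-(N : ℤ)) : CT)‖ * p N f) := by
          gcongr
          exact hTK _ _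
      _ = ‖ε₀‖ * K * p N f := by rw [fourier_norm]; ring
  -- (3)
  have h3 : ∀ g f : CT, ∀ δ : ℝ, 0 < δ → ∀ᶠ N in atTop, p N (g * f) ≤ K * ‖g‖ * p N f + δ := by
    intro g f δ hδ
    refine dens (fun N f => p N (g * f)) (fun N f => K * ‖g‖ * p N f)
      (K * ‖g‖ * ‖e 0‖ * (1 + K)) (by positivity) ?_ ?_ ?_ f δ hδ
    · intro N f f'
      refine (hps N _ _).trans ?_
      rw [← mul_sub]
      calc K * ‖g * (f - f')‖ * ‖e 0‖ ≤ K * (‖g‖ * ‖f - f'‖) * ‖e 0‖ := by
            gcongr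
            exact norm_mul_le _ _
        _ = K * ‖g‖ * ‖e 0‖ * 1 * ‖f - f'‖ := by ring
        _ ≤ K * ‖g‖ * ‖e 0‖ * (1 + K) * ‖f - f'‖ := by
            gcongr
            linarith
    · intro N f f'
      rw [← mul_sub, abs_mul, abs_of_nonneg (by positivity : 0 ≤ K * ‖g‖)]
      calc K * ‖g‖ * |p N f - p N f'| ≤ K * ‖g‖ * (K * ‖f - f'‖ * ‖e 0‖) := by
            gcongr
            exact hps N f f'
        _ = K * ‖g‖ * ‖e 0‖ * K * ‖f - f'‖ := by ring
        _ ≤ K * ‖g‖ * ‖e 0‖ * (1 + K) * ‖f - f'‖ := by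
            gcongr
            linarith
    · intro h hh δ' hδ'
      filter_upwards [mulTP hS h hh] with N hN
      have := hTK g (T (fourier (N : ℤ) * h) (e 0))
      rw [← hN g] at this
      exact this.trans (by simp only [hp]; linarith)
  -- (4)
  have h4H : ∀ h ∈ TP, ∀ δ : ℝ, 0 < δ → ∀ᶠ N : ℕ in atTop,
      ‖H a (T (fourier (N : ℤ) * h) (e 0))‖ ≤ 0 + δ := by
    intro h hh δ hδ
    refine dens (fun N b => ‖H b (T (fourier (N : ℤ) * h) (e 0))‖) (fun _ _ => 0)
      (K * (K * ‖h‖ * ‖e 0‖)) (by positivity) ?_ ?_ ?_ a δ hδ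
    · intro N b b'
      calc |‖H b (T (fourier (N : ℤ) * h) (e 0))‖ - ‖H b' (T (fourier (N : ℤ) * h) (e 0))‖|
          ≤ ‖H b (T (fourier (N : ℤ) * h) (e 0)) - H b' (T (fourier (N : ℤ) * h) (e 0))‖ :=
            abs_norm_sub_norm_le _ _
        _ = ‖H (b - b') (T (fourier (N : ℤ) * h) (e 0))‖ := by
            rw [H_sub hS, ContinuousLinearMap.sub_apply]
        _ ≤ K * ‖b - b'‖ * p N h := hHK _ _
        _ ≤ K * ‖b - b'‖ * (K * ‖h‖ * ‖e 0‖) := by
            gcongr
            exact hpb N h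
        _ = _ := by ring
    · intro N b b'
      simp only [sub_self, abs_zero]
      positivity
    · intro b hb δ' hδ'
      filter_upwards [HzeroTP hS b hb h hh] with N hN
      rw [hN, norm_zero]
      linarith
  have h4 : ∀ f : CT, ∀ δ : ℝ, 0 < δ → ∀ᶠ N in atTop, p N f ≤ C * p N (u * f) + δ := by
    intro f δ hδ
    refine dens (fun N f => p N f) (fun N f => C * p N (u * f))
      (K * ‖e 0‖ * (1 + C * ‖u‖)) (by positivity) ?_ ?_ ?_ f δ hδ
    · intro N f f'
      refine (hps N _ _).trans ?_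
      calc K * ‖f - f'‖ * ‖e 0‖ = K * ‖e 0‖ * 1 * ‖f - f'‖ := by ring
        _ ≤ K * ‖e 0‖ * (1 + C * ‖u‖) * ‖f - f'‖ := by
            gcongr
            have : 0 ≤ C * ‖u‖ := by positivity
            linarith
    · intro N f f'
      rw [← mul_sub, abs_mul, abs_of_nonneg hC0]
      calc C * |p N (u * f) - p N (u * f')| ≤ C * (K * ‖u * f - u * f'‖ * ‖e 0‖) := by
            gcongr
            exact hps N _ _
        _ ≤ C * (K * (‖u‖ * ‖f - f'‖) * ‖e 0‖) := by
            rw [← mul_sub]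
            gcongr
            exact norm_mul_le _ _
        _ = K * ‖e 0‖ * (C * ‖u‖) * ‖f - f'‖ := by ring
        _ ≤ K * ‖e 0‖ * (1 + C * ‖u‖) * ‖f - f'‖ := by
            gcongr
            linarith
    · intro h hh δ' hδ'
      have hpos : 0 < δ' / (C * ‖κ‖ + 1) := by positivity
      filter_upwards [mulTP hS h hh, h4H h hh _ hpos] with N hN hNH
      set x : Y := T (fourier (N : ℤ) * h) (e 0) with hx
      have e1 : z • x - A x = T (fourier (N : ℤ) * (u * h)) (e 0) - κ • H a x := by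
        rw [hN u, hu, T_sub hS, hS.Tsmul, T_one hS, hA]
        simp only [ContinuousLinearMap.add_apply, ContinuousLinearMap.sub_apply,
          ContinuousLinearMap.smul_apply, ContinuousLinearMap.one_apply]
        abel
      have e2 : ‖z • x - A x‖ ≤ p N (u * h) + ‖κ‖ * (δ' / (C * ‖κ‖ + 1)) := by
        rw [e1]
        refine (norm_sub_le _ _).trans ?_
        rw [norm_smul]
        have : ‖κ‖ * ‖H a x‖ ≤ ‖κ‖ * (δ' / (C * ‖κ‖ + 1)) := by
          gcongr
          linarith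
        exact add_le_add le_rfl this
      have e3 : C * (‖κ‖ * (δ' / (C * ‖κ‖ + 1))) ≤ δ' := by
        have e4 : C * (‖κ‖ * (δ' / (C * ‖κ‖ + 1))) = (C * ‖κ‖) / (C * ‖κ‖ + 1) * δ' := by
          field_simp
        have e5 : (C * ‖κ‖) / (C * ‖κ‖ + 1) ≤ 1 := by
          rw [div_le_one (by positivity)]
          linarith
        rw [e4]
        nlinarith
      calc p N h = ‖x‖ := rfl
        _ ≤ C * ‖z • x - A x‖ := hAb x
        _ ≤ C * (p N (u * h) + ‖κ‖ * (δ' / (C * ‖κ‖ + 1))) := by gcongr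
        _ = C * p N (u * h) + C * (‖κ‖ * (δ' / (C * ‖κ‖ + 1))) := by ring
        _ ≤ C * p N (u * h) + δ' := by linarith
  -- (5)
  set c : ℝ := C with hc
  set η : ℝ := 1 / (4 * (c * K + 1)) with hη
  have hη0 : 0 < η := by positivity
  have hsmall : c * (K * (2 * η)) ≤ 1 / 2 := by
    rw [hη]
    have : c * (K * (2 * (1 / (4 * (c * K + 1))))) = (c * K) / (2 * (c * K + 1)) := by
      field_simp
      ring
    rw [this, div_le_div_iff₀ (by positivity) (by norm_num)]
    nlinarith [mul_nonneg hC0 hK0]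
  let h : CT := ⟨fun t => ((max 0 (1 - ‖u t‖ / η) : ℝ) : ℂ), by fun_prop⟩
  let χ : CT := ⟨fun t => ((min 1 (max 0 (2 - ‖u t‖ / η)) : ℝ) : ℂ), by fun_prop⟩
  have hh : χ * h = h := by
    ext t
    change ((min 1 (max 0 (2 - ‖u t‖ / η)) : ℝ) : ℂ) * ((max 0 (1 - ‖u t‖ / η) : ℝ) : ℂ) =
      ((max 0 (1 - ‖u t‖ / η) : ℝ) : ℂ)
    rcases le_total 0 (1 - ‖u t‖ / η) with h1 | h1
    · have h2 : min 1 (max 0 (2 - ‖u t‖ / η)) = 1 := by
        apply min_eq_left
        exact le_max_of_le_right (by linarith)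
      rw [h2, Complex.ofReal_one, one_mul]
    · rw [max_eq_left h1]
      simp
  have hχ : ‖u * χ‖ ≤ 2 * η := by
    rw [ContinuousMap.norm_le _ (by positivity)]
    intro t
    rw [ContinuousMap.mul_apply, norm_mul]
    change ‖u t‖ * ‖((min 1 (max 0 (2 - ‖u t‖ / η)) : ℝ) : ℂ)‖ ≤ 2 * η
    rw [Complex.norm_real, Real.norm_eq_abs,
      abs_of_nonneg (le_min zero_le_one (le_max_left _ _))]
    rcases le_total (‖u t‖) (2 * η) with h1 | h1
    · calc ‖u t‖ * min 1 (max 0 (2 - ‖u t‖ / η)) ≤ ‖u t‖ * 1 :=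
            mul_le_mul_of_nonneg_left (min_le_left _ _) (norm_nonneg _)
        _ ≤ 2 * η := by rw [mul_one]; exact h1
    · have h2 : 2 - ‖u t‖ / η ≤ 0 := by
        have : 2 ≤ ‖u t‖ / η := by rwa [le_div_iff₀ hη0]
        linarith
      rw [max_eq_left h2, min_eq_right zero_le_one, mul_zero]
      positivity
  have hz : ∀ g : CT, ft 0 (h * g) = 0 := by
    intro g
    have hall : ∀ δ : ℝ, 0 < δ → ‖ft 0 (h * g)‖ ≤ ‖ε₀‖ * K * (2 * (c + 1)) * δ := by
      intro δ hδ
      obtain ⟨N, n1, n2⟩ := ((h4 (h * g) δ hδ).and (h3 (u * χ) (h * g) δ hδ)).exists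
      have e2 : u * (h * g) = (u * χ) * (h * g) := by
        rw [mul_assoc u χ, ← mul_assoc χ h g, hh]
      rw [e2] at n1
      have n3 : p N (u * χ * (h * g)) ≤ K * (2 * η) * p N (h * g) + δ := by
        refine n2.trans ?_
        gcongr
      have n4 : p N (h * g) ≤ 2 * (c + 1) * δ := by
        have n5 : c * p N (u * χ * (h * g)) ≤ c * (K * (2 * η) * p N (h * g) + δ) :=
          mul_le_mul_of_nonneg_left n3 hC0
        have n6 : c * (K * (2 * η)) * p N (h * g) ≤ 1 / 2 * p N (h * g) :=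
          mul_le_mul_of_nonneg_right hsmall (hp0 _ _)
        nlinarith
      refine (h2 N (h * g)).trans ?_
      calc ‖ε₀‖ * K * p N (h * g) ≤ ‖ε₀‖ * K * (2 * (c + 1) * δ) := by gcongr
        _ = _ := by ring
    have hle : ‖ft 0 (h * g)‖ ≤ 0 := by
      refine le_of_forall_pos_le_add fun δ hδ => ?_
      have hM : 0 ≤ ‖ε₀‖ * K * (2 * (c + 1)) := by positivity
      have := hall (δ / (‖ε₀‖ * K * (2 * (c + 1)) + 1)) (by positivity)
      refine this.trans ?_
      rw [zero_add, mul_div_assoc']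
      rw [div_le_iff₀ (by positivity)]
      nlinarith
    exact norm_eq_zero.1 (le_antisymm hle (norm_nonneg _))
  have hzero : h = 0 := by
    apply eq_zero_of_ft
    intro n
    have e1 := hz (fourier (-n))
    rw [mul_comm, ft_fourier_mul] at e1
    have : 0 - -n = n := by ring
    rw [this] at e1
    exact e1
  have h1 : h t0 = 1 := by
    change ((max 0 (1 - ‖u t0‖ / η) : ℝ) : ℂ) = 1
    have h2 : u t0 = 0 := by
      rw [hu]
      simp [ht0]
    rw [h2]
    simp
  rw [hzero] at h1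
  simp at h1

end Pool.Agent.R276.TH.ESS
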