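import Pool.Agent.R276.TH.Stm
import Pool.Agent.R276.SI.Fin
import Pool.Agent.R276.SI.Fac

/-!
# Project TH, assembly
-/

set_option autoImplicit false

noncomputable section

namespace Pool.Agent.R276.TH.Fin

open MeasureTheory AddCircle Set Filter Topology Metric
open scoped ENNReal NNReal
open Pool.Agent.Y283.TO
open Pool.Agent.R276.SI.Fin (cexp_neg_mul psm_neg norm_cexp_le)
open Pool.Agent.R276.SI (S_FAC)

theorem psm_sub (c d : ℕ → ℂ) (hc : Summable fun n => ‖c n‖) (hd : Summable fun n => ‖d n‖) :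
    psm c - psm d = psm (fun n => c n - d n) := by
  rw [psm, psm, psm, ← ps_sub c d hc hd]
  rfl

theorem summable_sub' (c d : ℕ → ℂ) (hc : Summable fun n => ‖c n‖)
    (hd : Summable fun n => ‖d n‖) : Summable fun n => ‖c n - d n‖ :=
  Summable.of_nonneg_of_le (fun _ => norm_nonneg _) (fun n => norm_sub_le (c n) (d n))
    (hc.add hd)

/-- factorisation adapted to Toeplitz plus Hankel operators -/
theorem fac (hFAC : S_FAC) (a : CT) (L q : ℝ) (hL : 0 < L) (hq : 1 / 2 ≤ q) (hq2 : 2 * q ^ 2 < 1)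
    (ha : HD (rl a) L q) (R : ℝ) (hR : 0 ≤ R) :
    ∃ (b : CT) (C : ℝ), 0 ≤ C ∧ ∀ z : ℂ, ‖z‖ ≤ R → (∀ t, a t ≠ z) →
      ∃ (k : ℤ) (c d : ℕ → ℂ) (β : ℂ), (Summable fun n => ‖c n‖) ∧ (Summable fun n => ‖d n‖) ∧
        β ≠ 0 ∧ ‖β⁻¹‖ ≤ 1 ∧
        a - algebraMap ℂ CT z = β • (cexp (psm d) * (fourier k * cexp (ps c + psm c))) ∧
        ENNReal.ofReal (‖ps c + psm c‖ + ‖psm d‖) ≤
          ENNReal.ofReal C * (HH a L q z + HH b L q z) := by
  obtain ⟨b, hbdef⟩ : ∃ b : CT, b = algebraMap ℂ CT ((R + 1 : ℝ) : ℂ) := ⟨_, rfl⟩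
  have hbt : ∀ t, b t = ((R + 1 : ℝ) : ℂ) := fun t => by rw [hbdef]; rfl
  have hb : HD (rl b) L q := by
    intro n s t _
    have hq0 : 0 < q := by linarith
    have e1 : rl b s - rl b t = 0 := by
      unfold rl
      rw [hbt, hbt, sub_self]
    rw [e1, norm_zero]
    positivity
  obtain ⟨C, hC, hfac⟩ := hFAC a b L q hL hq hq2 ha hb R
  refine ⟨b, 3 * C, by positivity, fun z hz hza => ?_⟩
  obtain ⟨β, hβ⟩ : ∃ β : ℂ, β = ((R + 1 : ℝ) : ℂ) - z := ⟨_, rfl⟩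
  have hβ1 : 1 ≤ ‖β‖ := by
    have h1 : ‖((R + 1 : ℝ) : ℂ)‖ - ‖z‖ ≤ ‖((R + 1 : ℝ) : ℂ) - z‖ := norm_sub_norm_le _ _
    rw [Complex.norm_real, Real.norm_eq_abs, abs_of_nonneg (by linarith)] at h1
    rw [hβ]
    linarith
  have hβ0 : β ≠ 0 := by
    intro h0
    rw [h0, norm_zero] at hβ1
    linarith
  have hzb : ∀ t, b t ≠ z := by
    intro t h0
    apply hβ0
    rw [hβ, ← hbt t, h0, sub_self]
  obtain ⟨k, c, d, w, hc, hd, h1, _, h3⟩ := hfac z hz hza hzb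
  refine ⟨k, c, fun n => d n - c n, β, hc, summable_sub' d c hd hc, hβ0, ?_, ?_, ?_⟩
  · rw [norm_inv]
    exact inv_le_one_of_one_le₀ hβ1
  · rw [h1, ← psm_sub d c hd hc]
    ext t
    have hz' : (algebraMap ℂ CT z) t = z := rfl
    have e1 : Complex.exp (psm c t) ≠ 0 := Complex.exp_ne_zero _
    change (b t - (algebraMap ℂ CT z) t) * (fourier k : CT) t * Complex.exp (ps c t) *
      Complex.exp (psm d t) = β * (Complex.exp (psm d t - psm c t) * ((fourier k : CT) t *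
        Complex.exp (ps c t + psm c t)))
    rw [hz', hbt, hβ, Complex.exp_sub, Complex.exp_add]
    field_simp
  · have e1 : ‖ps c + psm c‖ + ‖psm (fun n => d n - c n)‖ ≤
        3 * (‖ps c‖ + ‖psm d‖ + Real.posLog ‖w‖) := by
      rw [← psm_sub d c hd hc]
      have e2 : ‖psm c‖ = ‖ps c‖ := norm_rf (ps c)
      have e3 := norm_add_le (ps c) (psm c)
      have e4 := norm_sub_le (psm d) (psm c)
      have e5 : 0 ≤ Real.posLog ‖w‖ := Real.posLog_nonneg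
      have e6 := norm_nonneg (psm d)
      rw [e2] at e3 e4
      linarith
    refine (ENNReal.ofReal_le_ofReal e1).trans ?_
    rw [ENNReal.ofReal_mul (by norm_num), ENNReal.ofReal_mul (by norm_num), mul_assoc]
    exact mul_le_mul' le_rfl h3

section

variable {Y : Type} [NormedAddCommGroup Y] [NormedSpace ℂ Y]
variable {e : ℕ → Y} {ε₀ : Y →L[ℂ] ℂ} {T H : CT → (Y →L[ℂ] Y)} {s : ℤ} {κ : ℂ}
variable {A : CT → (Y →L[ℂ] Y)}

theorem A_add (h : THS e ε₀ T H s) (hA : ∀ a, A a = T a + κ • H a) (a b : CT) :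
    A (a + b) = A a + A b := by
  rw [hA, hA, hA, h.Tadd, h.Hadd, smul_add]
  abel

theorem A_smul (h : THS e ε₀ T H s) (hA : ∀ a, A a = T a + κ • H a) (c : ℂ) (a : CT) :
    A (c • a) = c • A a := by
  rw [hA, hA, h.Tsmul, h.Hsmul, smul_add, smul_comm]

theorem A_sub_z (h : THS e ε₀ T H s) (hA : ∀ a, A a = T a + κ • H a) (h1 : A 1 = 1) (a : CT)
    (z : ℂ) : A (a - algebraMap ℂ CT z) = A a - algebraMap ℂ (Y →L[ℂ] Y) z := by
  have e1 : a - algebraMap ℂ CT z = a + (-z) • (1 : CT) := by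
    ext t
    simp [sub_eq_add_neg]
  rw [e1, A_add h hA, A_smul h hA, h1, Algebra.algebraMap_eq_smul_one, neg_smul, sub_eq_add_neg]

theorem even_inv (hAV : S_AV) (hAE : S_AE) (h : THS e ε₀ T H s) (hκ : Adm s κ)
    (hA : ∀ a, A a = T a + κ • H a) (c : ℕ → ℂ) (hc : Summable fun n => ‖c n‖) :
    A (cexp (ps c + psm c)) * A (cexp (-(ps c + psm c))) = 1 ∧
    A (cexp (-(ps c + psm c))) * A (cexp (ps c + psm c)) = 1 := by
  have h1 := (hAV Y e ε₀ T H s κ h hκ A hA).1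
  have hcn : Summable fun n => ‖(fun n => -c n) n‖ := by simpa using hc
  have e1 : ps (fun n => -c n) + psm (fun n => -c n) = -(ps c + psm c) := by
    rw [← ps_neg c hc, ← psm_neg c hc, neg_add]
  constructor
  · have e2 := hAE Y e ε₀ T H s κ h hκ A hA (fun n => -c n) hcn (cexp (ps c + psm c))
    rw [e1] at e2
    rw [← e2, cexp_neg_mul, h1]
  · have e2 := hAE Y e ε₀ T H s κ h hκ A hA c hc (cexp (-(ps c + psm c)))
    rw [← e2, mul_comm, cexp_neg_mul, h1]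

theorem anti_inv (hAV : S_AV) (h : THS e ε₀ T H s) (hκ : Adm s κ)
    (hA : ∀ a, A a = T a + κ • H a) (d : ℕ → ℂ) (hd : Summable fun n => ‖d n‖) :
    A (cexp (psm d)) * A (cexp (-psm d)) = 1 ∧ A (cexp (-psm d)) * A (cexp (psm d)) = 1 := by
  obtain ⟨h1, h2, -⟩ := hAV Y e ε₀ T H s κ h hκ A hA
  constructor
  · rw [← h2 d hd, cexp_neg_mul, h1]
  · have e2 := h2 (fun n => -d n) (by simpa using hd) (cexp (psm d))
    rw [← psm_neg d hd] at e2
    rw [← e2, mul_comm, cexp_neg_mul, h1]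

theorem A_fac (hAV : S_AV) (hAE : S_AE) (h : THS e ε₀ T H s) (hκ : Adm s κ)
    (hA : ∀ a, A a = T a + κ • H a) (a : CT) (z : ℂ) (k : ℤ) (c d : ℕ → ℂ) (β : ℂ)
    (hc : Summable fun n => ‖c n‖) (hd : Summable fun n => ‖d n‖)
    (hf : a - algebraMap ℂ CT z = β • (cexp (psm d) * (fourier k * cexp (ps c + psm c)))) :
    A a - algebraMap ℂ (Y →L[ℂ] Y) z =
      β • (A (cexp (psm d)) * (A (fourier k) * A (cexp (ps c + psm c)))) := by
  obtain ⟨h1, h2, -⟩ := hAV Y e ε₀ T H s κ h hκ A hA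
  rw [← A_sub_z h hA h1, hf, A_smul h hA, h2 d hd, hAE Y e ε₀ T H s κ h hκ A hA c hc]

theorem eig (hAV : S_AV) (hAE : S_AE) (h : THS e ε₀ T H s) (hκ : Adm s κ)
    (hA : ∀ a, A a = T a + κ • H a) (a : CT) (z : ℂ) (k : ℤ) (c d : ℕ → ℂ) (β : ℂ)
    (hc : Summable fun n => ‖c n‖) (hd : Summable fun n => ‖d n‖) (hk : k < 0)
    (hf : a - algebraMap ℂ CT z = β • (cexp (psm d) * (fourier k * cexp (ps c + psm c)))) :
    ∃ x : Y, x ≠ 0 ∧ A a x = z • x := by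
  obtain ⟨h1, h2, h3⟩ := hAV Y e ε₀ T H s κ h hκ A hA
  obtain ⟨g1, g2⟩ := even_inv hAV hAE h hκ hA c hc
  obtain ⟨x, hx⟩ : ∃ x, x = A (cexp (-(ps c + psm c))) (e 0) := ⟨_, rfl⟩
  have hx1 : A (cexp (ps c + psm c)) x = e 0 := by
    rw [hx]
    exact congrArg (fun S : Y →L[ℂ] Y => S (e 0)) g1
  refine ⟨x, ?_, ?_⟩
  · intro h0
    rw [h0, map_zero] at hx1
    have g3 := h.coord 0
    rw [← hx1, map_zero] at g3
    simp at g3
  · have g3 := congrArg (fun S : Y →L[ℂ] Y => S x) (A_fac hAV hAE h hκ hA a z k c d β hc hd hf)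
    have g4 : (β • (A (cexp (psm d)) * (A (fourier k) * A (cexp (ps c + psm c))))) x = 0 := by
      change β • (A (cexp (psm d)) (A (fourier k) (A (cexp (ps c + psm c)) x))) = 0
      rw [hx1, h3 k hk, map_zero, smul_zero]
    have g5 : A a x - z • x = 0 := by
      have g6 : (A a - algebraMap ℂ (Y →L[ℂ] Y) z) x = A a x - z • x := by
        simp [Algebra.algebraMap_eq_smul_one]
      rw [← g6]
      exact g3.trans g4
    exact sub_eq_zero.1 g5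

theorem coeig (hAV : S_AV) (hAE : S_AE) (hAK : S_AK) (h : THS e ε₀ T H s) (hκ : Adm s κ)
    (hA : ∀ a, A a = T a + κ • H a) (a : CT) (z : ℂ) (k : ℤ) (c d : ℕ → ℂ) (β : ℂ)
    (hc : Summable fun n => ‖c n‖) (hd : Summable fun n => ‖d n‖) (hk : 0 < k)
    (hf : a - algebraMap ℂ CT z = β • (cexp (psm d) * (fourier k * cexp (ps c + psm c)))) :
    ∃ y : Y →L[ℂ] ℂ, y ≠ 0 ∧ y.comp (A a) = z • y := by
  obtain ⟨η, hη, hηk⟩ := hAK Y e ε₀ T H s κ h hκ A hA k hk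
  obtain ⟨g1, g2⟩ := anti_inv hAV h hκ hA d hd
  have hηk' : ∀ x, η (A (fourier k) x) = 0 := fun x => congrArg (fun f : Y →L[ℂ] ℂ => f x) hηk
  refine ⟨η.comp (A (cexp (-psm d))), ?_, ?_⟩
  · intro h0
    apply hη
    ext x
    have g3 := congrArg (fun f : Y →L[ℂ] ℂ => f (A (cexp (psm d)) x)) h0
    have g4 := congrArg (fun S : Y →L[ℂ] Y => S x) g2
    change η (A (cexp (-psm d)) (A (cexp (psm d)) x)) = 0 at g3
    change A (cexp (-psm d)) (A (cexp (psm d)) x) = x at g4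
    rw [g4] at g3
    exact g3
  · ext x
    change η (A (cexp (-psm d)) (A a x)) = z * η (A (cexp (-psm d)) x)
    have g3 := congrArg (fun S : Y →L[ℂ] Y => S x) (A_fac hAV hAE h hκ hA a z k c d β hc hd hf)
    have g6 : (A a - algebraMap ℂ (Y →L[ℂ] Y) z) x = A a x - z • x := by
      simp [Algebra.algebraMap_eq_smul_one]
    have g7 : A a x - z • x =
        β • (A (cexp (psm d)) (A (fourier k) (A (cexp (ps c + psm c)) x))) := by
      rw [← g6]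
      exact g3
    have g4 : ∀ v, A (cexp (-psm d)) (A (cexp (psm d)) v) = v := fun v =>
      congrArg (fun S : Y →L[ℂ] Y => S v) g2
    have g8 : A a x = z • x +
        β • (A (cexp (psm d)) (A (fourier k) (A (cexp (ps c + psm c)) x))) := by
      rw [← g7]; abel
    rw [g8, map_add, map_smul, map_smul, g4, map_add, map_smul, map_smul, hηk', smul_zero,
      add_zero, smul_eq_mul]

theorem inv (hAV : S_AV) (hAE : S_AE) (h : THS e ε₀ T H s) (hκ : Adm s κ)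
    (hA : ∀ a, A a = T a + κ • H a) (K : ℝ) (hK : 0 ≤ K) (hbd : ∀ f, ‖A f‖ ≤ K * ‖f‖)
    (a : CT) (z : ℂ) (c d : ℕ → ℂ) (β : ℂ)
    (hc : Summable fun n => ‖c n‖) (hd : Summable fun n => ‖d n‖) (hβ : β ≠ 0)
    (hβ1 : ‖β⁻¹‖ ≤ 1)
    (hf : a - algebraMap ℂ CT z = β • (cexp (psm d) * (fourier 0 * cexp (ps c + psm c)))) :
    z ∈ resolventSet ℂ (A a) ∧
      ‖resolvent (A a) z‖ ≤ K ^ 2 * Real.exp (‖ps c + psm c‖ + ‖psm d‖) := by
  obtain ⟨h1, h2, h3⟩ := hAV Y e ε₀ T H s κ h hκ A hA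
  obtain ⟨g1, g2⟩ := even_inv hAV hAE h hκ hA c hc
  obtain ⟨g3, g4⟩ := anti_inv hAV h hκ hA d hd
  have hfac := A_fac hAV hAE h hκ hA a z 0 c d β hc hd hf
  rw [fourier_zero_eq, h1, one_mul] at hfac
  obtain ⟨G, hG⟩ : ∃ G, G = A (cexp (ps c + psm c)) := ⟨_, rfl⟩
  obtain ⟨G', hG'⟩ : ∃ G', G' = A (cexp (-(ps c + psm c))) := ⟨_, rfl⟩
  obtain ⟨V, hV⟩ : ∃ V, V = A (cexp (psm d)) := ⟨_, rfl⟩
  obtain ⟨V', hV'⟩ : ∃ V', V' = A (cexp (-psm d)) := ⟨_, rfl⟩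
  rw [← hG, ← hG'] at g1 g2
  rw [← hV, ← hV'] at g3 g4
  rw [← hV, ← hG] at hfac
  obtain ⟨J, hJ⟩ : ∃ J, J = β⁻¹ • (G' * V') := ⟨_, rfl⟩
  have r1 : J * (A a - algebraMap ℂ (Y →L[ℂ] Y) z) = 1 := by
    rw [hfac, hJ, smul_mul_smul_comm, inv_mul_cancel₀ hβ, one_smul]
    calc G' * V' * (V * G) = G' * (V' * V) * G := by simp only [mul_assoc]
      _ = 1 := by rw [g4, mul_one, g2]
  have r2 : (A a - algebraMap ℂ (Y →L[ℂ] Y) z) * J = 1 := by
    rw [hfac, hJ, smul_mul_smul_comm, mul_inv_cancel₀ hβ, one_smul]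
    calc V * G * (G' * V') = V * (G * G') * V' := by simp only [mul_assoc]
      _ = 1 := by rw [g1, mul_one, g3]
  obtain ⟨B, hB⟩ : ∃ B, B = A a := ⟨_, rfl⟩
  rw [← hB] at r1 r2 ⊢
  obtain ⟨u, hu⟩ : ∃ u : (Y →L[ℂ] Y)ˣ, u = ⟨algebraMap ℂ (Y →L[ℂ] Y) z - B, -J,
      by rw [mul_neg, ← neg_mul, neg_sub, r2], by rw [neg_mul, ← mul_neg, neg_sub, r1]⟩ := ⟨_, rfl⟩
  have hu1 : (u : Y →L[ℂ] Y) = algebraMap ℂ (Y →L[ℂ] Y) z - B := by rw [hu]
  have hu2 : ((u⁻¹ : (Y →L[ℂ] Y)ˣ) : Y →L[ℂ] Y) = -J := by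
    rw [hu]; rfl
  refine ⟨⟨u, hu1⟩, ?_⟩
  rw [resolvent, ← hu1, Ring.inverse_unit, hu2, norm_neg]
  have n1 : ‖G'‖ ≤ K * Real.exp ‖ps c + psm c‖ := by
    rw [hG']
    refine (hbd _).trans (mul_le_mul_of_nonneg_left ((norm_cexp_le _).trans ?_) hK)
    rw [norm_neg]
  have n2 : ‖V'‖ ≤ K * Real.exp ‖psm d‖ := by
    rw [hV']
    refine (hbd _).trans (mul_le_mul_of_nonneg_left ((norm_cexp_le _).trans ?_) hK)
    rw [norm_neg]
  have n3 : ‖J‖ ≤ 1 * (K * Real.exp ‖ps c + psm c‖ * (K * Real.exp ‖psm d‖)) := by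
    rw [hJ, norm_smul]
    refine mul_le_mul hβ1 ((norm_mul_le _ _).trans (mul_le_mul n1 n2 (norm_nonneg _)
      (by positivity))) (norm_nonneg _) (by norm_num)
  refine n3.trans (le_of_eq ?_)
  rw [Real.exp_add]
  ring

end

theorem main (hAV : S_AV) (hAE : S_AE) (hAK : S_AK) (hESS : S_ESS) (hFAC : S_FAC)
    {Y : Type} [NormedAddCommGroup Y] [NormedSpace ℂ Y] [CompleteSpace Y]
    {e : ℕ → Y} {ε₀ : Y →L[ℂ] ℂ} {T H : CT → (Y →L[ℂ] Y)} {s : ℤ} {κ : ℂ}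
    (h : THS e ε₀ T H s) (hκ : Adm s κ)
    (a : CT) (L q : ℝ) (hL : 0 < L) (hq : 1 / 2 ≤ q) (hq2 : 2 * q ^ 2 < 1)
    (ha : HD (rl a) L q) :
    (∃ c : ℂ, (T a + κ • H a : Y →L[ℂ] Y) = c • 1) ∨ HasHyp (T a + κ • H a : Y →L[ℂ] Y) := by
  have hq0 : 0 < q := by linarith
  by_cases hT : ∃ c : ℂ, (T a + κ • H a : Y →L[ℂ] Y) = c • 1
  · exact Or.inl hT
  right
  by_contra hcon
  push Not at hT
  obtain ⟨A, hA⟩ : ∃ A : CT → (Y →L[ℂ] Y), ∀ a, A a = T a + κ • H a := ⟨_, fun _ => rfl⟩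
  rw [← hA a] at hT hcon
  obtain ⟨K0, hK0, hbd0⟩ := h.bound
  obtain ⟨K, hKd⟩ : ∃ K : ℝ, K = K0 + ‖κ‖ * K0 := ⟨_, rfl⟩
  have hK : 0 ≤ K := by rw [hKd]; positivity
  have hbd : ∀ f, ‖A f‖ ≤ K * ‖f‖ := by
    intro f
    rw [hA]
    refine (norm_add_le _ _).trans ?_
    rw [norm_smul, hKd, add_mul, mul_assoc]
    exact add_le_add (hbd0 f).1 (mul_le_mul_of_nonneg_left (hbd0 f).2 (norm_nonneg _))
  obtain ⟨R, hR⟩ : ∃ R : ℝ, R = ‖a‖ + 1 := ⟨_, rfl⟩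
  have hR0 : 0 ≤ R := by rw [hR]; positivity
  obtain ⟨b, C, hC, hfac⟩ := fac hFAC a L q hL hq hq2 ha R hR0
  obtain ⟨D, hD⟩ : ∃ D : ℝ, D = Real.posLog (K ^ 2) := ⟨_, rfl⟩
  have hD0 : 0 ≤ D := hD ▸ Real.posLog_nonneg
  have key : ∀ z : ℂ, ‖z‖ ≤ R → (∀ t, a t ≠ z) → z ∈ resolventSet ℂ (A a) ∧
      ENNReal.ofReal (Real.posLog ‖resolvent (A a) z‖) ≤
        ENNReal.ofReal D + ENNReal.ofReal C * (HH a L q z + HH b L q z) := by
    intro z hzR hza
    obtain ⟨k, c, d, β, hc, hd, hβ, hβ1, h1, h3⟩ := hfac z hzR hza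
    rcases lt_trichotomy k 0 with hk | hk | hk
    · exfalso
      obtain ⟨x, hx, hxe⟩ := eig hAV hAE h hκ hA a z k c d β hc hd hk h1
      exact hcon (hyp_of_eig _ hT z x hx hxe)
    · rw [hk] at h1
      obtain ⟨g1, g2⟩ := inv hAV hAE h hκ hA K hK hbd a z c d β hc hd hβ hβ1 h1
      refine ⟨g1, ?_⟩
      have g3 : Real.posLog ‖resolvent (A a) z‖ ≤ D + (‖ps c + psm c‖ + ‖psm d‖) := by
        refine (Real.posLog_le_posLog (norm_nonneg _) g2).trans ?_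
        refine Real.posLog_mul.trans ?_
        rw [← hD]
        refine add_le_add le_rfl ?_
        rw [Real.posLog, Real.log_exp]
        exact (max_eq_right (by positivity)).le
      refine (ENNReal.ofReal_le_ofReal g3).trans ?_
      rw [ENNReal.ofReal_add hD0 (by positivity)]
      exact add_le_add le_rfl h3
    · exfalso
      obtain ⟨y, hy, hye⟩ := coeig hAV hAE hAK h hκ hA a z k c d β hc hd hk h1
      exact hcon (hyp_of_coeig _ hT z y hy hye)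
  have hvol : volume (range a) = 0 := volume_range a L q hL hq0 hq2 ha
  have hsr : spectrum ℂ (A a) ∩ ball 0 R ⊆ range a := by
    rintro z ⟨hz, hzR⟩
    by_contra hc
    exact hz (key z (mem_ball_zero_iff.1 hzR).le (fun t ht => hc ⟨t, ht⟩)).1
  have hsa : ∀ t, a t ∈ spectrum ℂ (A a) ∩ ball 0 R := by
    intro t
    refine ⟨fun hz => ?_, ?_⟩
    · rw [hA] at hz
      exact hESS Y e ε₀ T H s κ h a (a t) hz t rfl
    · rw [mem_ball_zero_iff, hR]
      have := a.norm_coe_le_norm t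
      linarith
  have hnt : (spectrum ℂ (A a) ∩ ball 0 R).Nontrivial := by
    by_contra hn
    rw [not_nontrivial_iff] at hn
    have e1 : a = (a 0) • (1 : CT) := by
      ext t
      simpa using hn (hsa t) (hsa 0)
    apply hT (a 0)
    have h1 := (hAV Y e ε₀ T H s κ h hκ A hA).1
    conv_lhs => rw [e1]
    rw [A_smul h hA, h1]
  apply hcon
  refine Pool.Agent.W610.HY.Cor.glob Pool.Agent.W610.HY.Reduct.loc
    Pool.Agent.W19.HY.RES.main Pool.Agent.W610.HY.Fin.hMEAS (A a) (ball 0 R) isOpen_ball hnt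
    (measure_mono_null hsr hvol) ?_
  have hmeas : StronglyMeasurable fun z : ℂ => resolvent (A a) z :=
    Pool.Agent.W610.HY.Fin.hMEAS (Y →L[ℂ] Y) (A a)
  refine ⟨(Real.continuous_posLog.comp_stronglyMeasurable hmeas.norm).aestronglyMeasurable, ?_⟩
  rw [hasFiniteIntegral_iff_ofReal (ae_of_all _ fun z => Real.posLog_nonneg)]
  have h1 : ∀ᵐ z ∂((volume : Measure ℂ).restrict (ball 0 R)),
      ENNReal.ofReal (Real.posLog ‖resolvent (A a) z‖) ≤
        ENNReal.ofReal D + ENNReal.ofReal C * (HH a L q z + HH b L q z) := by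
    have h2 : ∀ᵐ z ∂((volume : Measure ℂ).restrict (ball 0 R)), z ∉ range a := by
      rw [ae_iff]
      simp only [not_not]
      exact le_antisymm ((Measure.restrict_apply_le _ _).trans hvol.le) bot_le
    filter_upwards [h2, ae_restrict_mem measurableSet_ball] with z hz1 hz2
    exact (key z (mem_ball_zero_iff.1 hz2).le (fun t ht => hz1 ⟨t, ht⟩)).2
  refine (lintegral_mono_ae h1).trans_lt ?_
  rw [lintegral_add_left measurable_const, lintegral_const, Measure.restrict_apply_univ,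
    lintegral_const_mul' _ _ ENNReal.ofReal_ne_top,
    lintegral_add_left (measurable_HH a L q)]
  refine ENNReal.add_lt_top.2 ⟨ENNReal.mul_lt_top ENNReal.ofReal_lt_top measure_ball_lt_top, ?_⟩
  refine ENNReal.mul_lt_top ENNReal.ofReal_lt_top (ENNReal.add_lt_top.2 ⟨?_, ?_⟩)
  · exact lt_top_iff_ne_top.mpr (lintegral_HH a L q hL hq0 hq2 R)
  · exact lt_top_iff_ne_top.mpr (lintegral_HH b L q hL hq0 hq2 R)

end Pool.Agent.R276.TH.Fin
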