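import Pool.Agent.R276.TH.Stm

/-!
# Project TH: the concrete space `ℓ²(ℕ)`
-/

set_option autoImplicit false

noncomputable section

namespace Pool.Agent.R276.TH

open MeasureTheory AddCircle Set Filter Topology Metric
open scoped ENNReal NNReal
open Pool.Agent.Y283.TO

/-- `ℓ²(ℕ)` -/
abbrev L2N : Type := lp (fun _ : ℕ => ℂ) 2

/-- L2: `ℓ²(ℕ)` carries bounded Toeplitz and Hankel operators -/
def S_L2 : Prop :=
  ∃ (ε₀ : L2N →L[ℂ] ℂ) (T H : CT → (L2N →L[ℂ] L2N)),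
    THS (fun n : ℕ => lp.single 2 n (1 : ℂ)) ε₀ T H 1 ∧
    (∀ (a : CT) (i j : ℕ), (T a (lp.single 2 j (1 : ℂ)) : ℕ → ℂ) i = ft ((i : ℤ) - j) a) ∧
    (∀ (a : CT) (i j : ℕ), (H a (lp.single 2 j (1 : ℂ)) : ℕ → ℂ) i = ft ((i : ℤ) + j + 1) a)

end Pool.Agent.R276.TH
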