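import Pool.Agent.R276.TH.Fin
import Pool.Agent.R276.TH.StmL

/-!
# Project TH, general and concrete form
-/

set_option autoImplicit false

noncomputable section

namespace Pool.Agent.R276.TH.Gen

open MeasureTheory AddCircle Set Filter Topology Metric
open scoped ENNReal NNReal
open Pool.Agent.Y283.TO
open Pool.Agent.R276.SI (S_FAC)

/-- shift of the Hankel part -/
theorem shiftH {Y : Type} [NormedAddCommGroup Y] [NormedSpace ℂ Y] {e : ℕ → Y}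
    {ε₀ : Y →L[ℂ] ℂ} {T H : CT → (Y →L[ℂ] Y)} (h : THS e ε₀ T H 1) (s : ℤ) :
    THS e ε₀ T (fun a => H (fourier (1 - s) * a)) s := by
  refine ⟨h.dense, h.Tadd, h.Tsmul, ?_, ?_, ?_, h.Tact, ?_, h.coord⟩
  · intro a b
    rw [mul_add, h.Hadd]
  · intro c a
    rw [mul_smul_comm, h.Hsmul]
  · obtain ⟨K, hK, hb⟩ := h.bound
    refine ⟨K, hK, fun a => ⟨(hb a).1, ?_⟩⟩
    refine ((hb _).2).trans (mul_le_mul_of_nonneg_left ?_ hK)
    refine (norm_mul_le _ _).trans ?_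
    rw [fourier_norm, one_mul]
  · intro m n
    rw [← fourier_add_eq, h.Hact]
    congr 1
    ring

theorem gen (hAV : S_AV) (hAE : S_AE) (hAK : S_AK) (hESS : S_ESS) (hFAC : S_FAC)
    {Y : Type} [NormedAddCommGroup Y] [NormedSpace ℂ Y] [CompleteSpace Y]
    {e : ℕ → Y} {ε₀ : Y →L[ℂ] ℂ} {T H : CT → (Y →L[ℂ] Y)} (h : THS e ε₀ T H 1) {s : ℤ} {κ : ℂ}
    (hκ : Adm s κ) (a : CT) (C α : ℝ≥0) (hα : 1 / 2 < α) (ha : HolderWith C α a) :
    (∃ c : ℂ, (T a + κ • H (fourier (1 - s) * a) : Y →L[ℂ] Y) = c • 1) ∨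
      HasHyp (T a + κ • H (fourier (1 - s) * a) : Y →L[ℂ] Y) := by
  obtain ⟨L, q, hL, hq, hq2, hHD⟩ := HD_of_holder a C α hα ha
  exact Fin.main hAV hAE hAK hESS hFAC (shiftH h s) hκ a L q hL (by linarith) hq2 hHD

theorem conc (hAV : S_AV) (hAE : S_AE) (hAK : S_AK) (hESS : S_ESS) (hFAC : S_FAC) (hL2 : S_L2)
    {s : ℤ} {κ : ℂ} (hκ : Adm s κ) (a : CT) (C α : ℝ≥0) (hα : 1 / 2 < α) (ha : HolderWith C α a)
    (B : L2N →L[ℂ] L2N)
    (hB : ∀ i j : ℕ, (B (lp.single 2 j (1 : ℂ)) : ℕ → ℂ) i =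
      ft ((i : ℤ) - j) a + κ * ft ((i : ℤ) + j + s) a) :
    (∃ c : ℂ, B = c • 1) ∨ HasHyp B := by
  obtain ⟨ε₀, T, H, h, hT, hH⟩ := hL2
  have e1 : B = T a + κ • H (fourier (1 - s) * a) := by
    refine ContinuousLinearMap.ext_on h.dense ?_
    rintro _ ⟨j, rfl⟩
    ext i
    have e2 := hT a i j
    have e3 := hH (fourier (1 - s) * a) i j
    rw [ft_fourier_mul] at e3
    have e4 : (i : ℤ) + j + 1 - (1 - s) = i + j + s := by ring
    rw [e4] at e3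
    rw [hB i j, ← e2, ← e3]
    rfl
  rw [e1]
  exact gen hAV hAE hAK hESS hFAC h hκ a C α hα ha

end Pool.Agent.R276.TH.Gen
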