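import Pool.Agent.R276.TH.StmL

/-! TH-L2 (helper861, subtask 5337, MP_5ac32f_an): Toeplitz and Hankel operators on `ℓ²(ℕ)`. -/

set_option autoImplicit false

noncomputable section

namespace Pool.Agent.R276.TH.L2

open MeasureTheory AddCircle Set Filter Topology Metric
open scoped ENNReal NNReal
open Pool.Agent.Y283.TO
open Pool.Agent.R276.TH

/-- `L²` of the circle -/
abbrev EE : Type := Lp ℂ 2 (haarAddCircle (T := (1 : ℝ)))

/-- a continuous function in `L^∞` -/
def tl (a : CT) : Lp ℂ ∞ (haarAddCircle (T := (1 : ℝ))) :=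
  ContinuousMap.toLp ∞ (haarAddCircle (T := (1 : ℝ))) ℂ a

theorem tl_norm (a : CT) : ‖tl a‖ ≤ ‖a‖ := by
  have h1 := (ContinuousMap.toLp (E := ℂ) ∞ (haarAddCircle (T := (1 : ℝ))) ℂ).le_opNorm a
  have h2 := ContinuousMap.toLp_norm_le (E := ℂ) (p := ∞) (μ := haarAddCircle (T := (1 : ℝ)))
    (𝕜 := ℂ)
  have h3 : ((measureUnivNNReal (haarAddCircle (T := (1 : ℝ))) : ℝ)) ^
      ((∞ : ℝ≥0∞).toReal)⁻¹ = 1 := by
    rw [ENNReal.toReal_top, inv_zero, Real.rpow_zero]
  have h4 : ‖ContinuousMap.toLp (E := ℂ) ∞ (haarAddCircle (T := (1 : ℝ))) ℂ‖ ≤ 1 := by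
    refine h2.trans (le_of_eq ?_)
    exact h3
  calc ‖tl a‖ ≤ ‖ContinuousMap.toLp (E := ℂ) ∞ (haarAddCircle (T := (1 : ℝ))) ℂ‖ * ‖a‖ := h1
    _ ≤ 1 * ‖a‖ := mul_le_mul_of_nonneg_right h4 (norm_nonneg _)
    _ = ‖a‖ := one_mul _

theorem tl_add (a b : CT) : tl (a + b) = tl a + tl b := map_add _ a b

theorem tl_smul (c : ℂ) (a : CT) : tl (c • a) = c • tl a := map_smul _ c a

theorem tl_coe (a : CT) : (tl a : UnitAddCircle → ℂ) =ᵐ[haarAddCircle (T := (1 : ℝ))] a :=
  ContinuousMap.coeFn_toLp (p := ∞) (𝕜 := ℂ) (haarAddCircle (T := (1 : ℝ))) a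

/-- multiplication -/
def mulop (a : CT) : EE →L[ℂ] EE :=
  LinearMap.mkContinuous
    { toFun := fun g => ((tl a • g : EE))
      map_add' := fun g h => Lp.add_smul (tl a) g h
      map_smul' := fun c g => (Lp.smul_comm c (tl a) g).symm } ‖a‖
    (fun g => (Lp.norm_smul_le (tl a) g).trans
      (mul_le_mul_of_nonneg_right (tl_norm a) (norm_nonneg _)))

theorem mulop_apply (a : CT) (g : EE) : mulop a g = ((tl a • g : EE)) := rfl

theorem mulop_norm (a : CT) : ‖mulop a‖ ≤ ‖a‖ :=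
  LinearMap.mkContinuous_norm_le _ (norm_nonneg _) _

theorem mulop_add (a b : CT) : mulop (a + b) = mulop a + mulop b := by
  ext1 g
  rw [ContinuousLinearMap.add_apply, mulop_apply, mulop_apply, mulop_apply, tl_add]
  exact Lp.smul_add (tl a) (tl b) g

theorem mulop_smul (c : ℂ) (a : CT) : mulop (c • a) = c • mulop a := by
  ext1 g
  rw [ContinuousLinearMap.smul_apply, mulop_apply, mulop_apply, tl_smul]
  exact Lp.smul_assoc c (tl a) g

theorem entry (a : CT) (i j : ℤ) :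
    inner ℂ (fourierLp (T := (1 : ℝ)) 2 i) (mulop a (fourierLp (T := (1 : ℝ)) 2 j)) =
      ft (i - j) a := by
  have h1 : inner ℂ (fourierLp (T := (1 : ℝ)) 2 i) (mulop a (fourierLp (T := (1 : ℝ)) 2 j)) =
      fourierBasis.repr (mulop a (fourierLp (T := (1 : ℝ)) 2 j)) i := by
    rw [HilbertBasis.repr_apply_apply, coe_fourierBasis]
  rw [h1, fourierBasis_repr, ← ft_fourier_mul, ft_eq]
  refine congrFun (fourierCoeff_congr_ae ?_) i
  have h2 : ((mulop a (fourierLp (T := (1 : ℝ)) 2 j) : EE) : UnitAddCircle → ℂ)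
      =ᵐ[haarAddCircle (T := (1 : ℝ))]
      (tl a : UnitAddCircle → ℂ) • ((fourierLp (T := (1 : ℝ)) 2 j : EE) : UnitAddCircle → ℂ) := by
    rw [mulop_apply]
    exact Lp.coeFn_lpSMul _ _
  filter_upwards [h2, tl_coe a, coeFn_fourierLp (T := (1 : ℝ)) 2 j] with t ht1 ht2 ht3
  rw [ht1, Pi.smul_apply', ht2, ht3, smul_eq_mul, mul_comm]
  rfl

/-- the isometry with `e n ↦ χ (g n)` -/
def iso (g : ℕ → ℤ) (hg : Function.Injective g) : L2N →ₗᵢ[ℂ] EE :=
  ((orthonormal_fourier (T := (1 : ℝ))).comp g hg).orthogonalFamily.linearIsometry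

theorem iso_single (g : ℕ → ℤ) (hg : Function.Injective g) (n : ℕ) :
    iso g hg (lp.single 2 n (1 : ℂ)) = fourierLp (T := (1 : ℝ)) 2 (g n) := by
  unfold iso
  rw [OrthogonalFamily.linearIsometry_apply_single]
  simp

theorem inj1 : Function.Injective (fun n : ℕ => (n : ℤ)) := Nat.cast_injective

theorem inj2 : Function.Injective (fun n : ℕ => -(n : ℤ) - 1) := by
  intro a b h
  have h' : -(a : ℤ) - 1 = -(b : ℤ) - 1 := h
  omega

/-- compression -/
def cmp (g : ℕ → ℤ) (hg : Function.Injective g) (a : CT) : L2N →L[ℂ] L2N :=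
  (ContinuousLinearMap.adjoint (iso (fun n : ℕ => (n : ℤ)) inj1).toContinuousLinearMap).comp
    ((mulop a).comp (iso g hg).toContinuousLinearMap)

theorem coord_eq (x : L2N) (i : ℕ) :
    (x : ℕ → ℂ) i = inner ℂ (lp.single 2 i (1 : ℂ) : L2N) x := by
  rw [lp.inner_single_left]
  simp

theorem cmp_entry (g : ℕ → ℤ) (hg : Function.Injective g) (a : CT) (i j : ℕ) :
    (cmp g hg a (lp.single 2 j (1 : ℂ)) : ℕ → ℂ) i = ft ((i : ℤ) - g j) a := by
  rw [coord_eq]
  unfold cmp
  rw [ContinuousLinearMap.comp_apply, ContinuousLinearMap.adjoint_inner_right,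
    ContinuousLinearMap.comp_apply]
  have h1 : (iso (fun n : ℕ => (n : ℤ)) inj1).toContinuousLinearMap (lp.single 2 i (1 : ℂ)) =
      fourierLp (T := (1 : ℝ)) 2 (i : ℤ) := iso_single _ inj1 i
  have h2 : (iso g hg).toContinuousLinearMap (lp.single 2 j (1 : ℂ)) =
      fourierLp (T := (1 : ℝ)) 2 (g j) := iso_single g hg j
  rw [h1, h2, entry]

theorem cmp_add (g : ℕ → ℤ) (hg : Function.Injective g) (a b : CT) :
    cmp g hg (a + b) = cmp g hg a + cmp g hg b := by
  unfold cmp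
  rw [mulop_add, ContinuousLinearMap.add_comp, ContinuousLinearMap.comp_add]

theorem cmp_smul (g : ℕ → ℤ) (hg : Function.Injective g) (c : ℂ) (a : CT) :
    cmp g hg (c • a) = c • cmp g hg a := by
  unfold cmp
  rw [mulop_smul, ContinuousLinearMap.smul_comp, ContinuousLinearMap.comp_smul]

theorem cmp_norm (g : ℕ → ℤ) (hg : Function.Injective g) (a : CT) :
    ‖cmp g hg a‖ ≤ 1 * ‖a‖ := by
  have h1 : ‖(iso (fun n : ℕ => (n : ℤ)) inj1).toContinuousLinearMap‖ ≤ 1 :=
    LinearIsometry.norm_toContinuousLinearMap_le _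
  have h2 : ‖(iso g hg).toContinuousLinearMap‖ ≤ 1 :=
    LinearIsometry.norm_toContinuousLinearMap_le _
  unfold cmp
  have h3 := ContinuousLinearMap.opNorm_comp_le
    (ContinuousLinearMap.adjoint (iso (fun n : ℕ => (n : ℤ)) inj1).toContinuousLinearMap)
    ((mulop a).comp (iso g hg).toContinuousLinearMap)
  have h4 := ContinuousLinearMap.opNorm_comp_le (mulop a) (iso g hg).toContinuousLinearMap
  rw [LinearIsometryEquiv.norm_map] at h3
  have h5 := mulop_norm a
  refine h3.trans (mul_le_mul h1 (h4.trans ?_) (norm_nonneg _) zero_le_one)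
  calc ‖mulop a‖ * ‖(iso g hg).toContinuousLinearMap‖ ≤ ‖a‖ * 1 :=
        mul_le_mul h5 h2 (norm_nonneg _) (norm_nonneg _)
    _ = ‖a‖ := mul_one _

theorem dense_e : Dense (Submodule.span ℂ
    (Set.range (fun n : ℕ => (lp.single 2 n (1 : ℂ) : L2N))) : Set L2N) := by
  have h := (HilbertBasis.ofRepr (LinearIsometryEquiv.refl ℂ L2N)).dense_span
  have h2 : (⇑(HilbertBasis.ofRepr (LinearIsometryEquiv.refl ℂ L2N)) : ℕ → L2N) =
      fun n : ℕ => (lp.single 2 n (1 : ℂ) : L2N) := by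
    funext n
    exact ((HilbertBasis.ofRepr (LinearIsometryEquiv.refl ℂ L2N)).repr_symm_single n).symm
  rw [h2] at h
  rw [Submodule.dense_iff_topologicalClosure_eq_top]
  exact h

theorem single_apply' (n i : ℕ) :
    ((lp.single 2 n (1 : ℂ) : L2N) : ℕ → ℂ) i = if i = n then 1 else 0 := by
  rw [lp.coeFn_single, Pi.single_apply]

theorem up_apply (k : ℤ) (i : ℕ) :
    ((up (fun n : ℕ => (lp.single 2 n (1 : ℂ) : L2N)) k : L2N) : ℕ → ℂ) i =
      if (i : ℤ) = k then 1 else 0 := by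
  unfold up
  by_cases hk : 0 ≤ k
  · rw [if_pos hk, single_apply']
    by_cases h : (i : ℤ) = k
    · rw [if_pos h, if_pos (by omega)]
    · rw [if_neg h, if_neg (by omega)]
  · rw [if_neg hk, if_neg (by omega)]
    rfl

theorem main : S_L2 := by
  refine ⟨innerSL ℂ (lp.single 2 0 (1 : ℂ) : L2N), cmp (fun n : ℕ => (n : ℤ)) inj1,
    cmp (fun n : ℕ => -(n : ℤ) - 1) inj2, ?_, ?_, ?_⟩
  · refine
      { dense := dense_e
        Tadd := cmp_add _ _
        Tsmul := cmp_smul _ _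
        Hadd := cmp_add _ _
        Hsmul := cmp_smul _ _
        bound := ⟨1, zero_le_one, fun a => ⟨cmp_norm _ _ a, cmp_norm _ _ a⟩⟩
        Tact := ?_
        Hact := ?_
        coord := ?_ }
    · intro m n
      ext i
      rw [cmp_entry, up_apply, ft_fourier]
      have : ((i : ℤ) - (n : ℤ) = m) ↔ ((i : ℤ) = m + n) := by omega
      simp only [this]
    · intro m n
      ext i
      rw [cmp_entry, up_apply, ft_fourier]
      have : ((i : ℤ) - (-(n : ℤ) - 1) = m) ↔ ((i : ℤ) = m - n - 1) := by omega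
      simp only [this]
    · intro n
      rw [innerSL_apply_apply, ← coord_eq, single_apply']
      by_cases h : n = 0
      · rw [if_pos h, if_pos h.symm]
      · rw [if_neg h, if_neg (fun h' => h h'.symm)]
  · intro a i j
    exact cmp_entry _ _ a i j
  · intro a i j
    rw [cmp_entry]
    congr 2
    ring

end Pool.Agent.R276.TH.L2
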