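import Pool.Agent.R276.SI.Stm

/-!
# Project TH (MP_5ac32f_an): Toeplitz plus Hankel operators on Banach spaces

Statements of the independent parts; proofs in `NOTES.md`.  `CT = C(UnitAddCircle, ℂ)`, `ft n` Fourier
coefficient, `cexp`, `ps`, `psm`, `HD`, `rl`, `HH` are from `Pool/Agent/Y283/TO`.
-/

set_option autoImplicit false

noncomputable section

namespace Pool.Agent.R276.TH

open MeasureTheory AddCircle Set Filter Topology Metric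
open scoped ENNReal NNReal
open Pool.Agent.Y283.TO

/-- the vectors `e n`, with `0` at the negative indices -/
def up {Y : Type} [NormedAddCommGroup Y] (e : ℕ → Y) (j : ℤ) : Y := if 0 ≤ j then e j.toNat else 0

/-- A Banach space with bounded Toeplitz operators `T a` (matrix `ft (j - k) a`) and Hankel operators `H a`
(matrix `ft (j + k + s) a`) in the basis `e n` (`n ≥ 0`); `ε₀` is the coordinate of `e 0`. -/
structure THS {Y : Type} [NormedAddCommGroup Y] [NormedSpace ℂ Y] (e : ℕ → Y) (ε₀ : Y →L[ℂ] ℂ)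
    (T H : CT → (Y →L[ℂ] Y)) (s : ℤ) : Prop where
  dense : Dense (Submodule.span ℂ (Set.range e) : Set Y)
  Tadd : ∀ a b, T (a + b) = T a + T b
  Tsmul : ∀ (c : ℂ) (a : CT), T (c • a) = c • T a
  Hadd : ∀ a b, H (a + b) = H a + H b
  Hsmul : ∀ (c : ℂ) (a : CT), H (c • a) = c • H a
  bound : ∃ K : ℝ, 0 ≤ K ∧ ∀ a, ‖T a‖ ≤ K * ‖a‖ ∧ ‖H a‖ ≤ K * ‖a‖
  Tact : ∀ (m : ℤ) (n : ℕ), T (fourier m) (e n) = up e (m + n)
  Hact : ∀ (m : ℤ) (n : ℕ), H (fourier m) (e n) = up e (m - n - s)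
  coord : ∀ n : ℕ, ε₀ (e n) = if n = 0 then 1 else 0

/-- the admissible pairs -/
def Adm (s : ℤ) (κ : ℂ) : Prop := (s = 1 ∧ (κ = 1 ∨ κ = -1)) ∨ (s = 2 ∧ κ = -1)

/-- AV: the identity, antianalytic factors on the left, kernel -/
def S_AV : Prop :=
  ∀ (Y : Type) [NormedAddCommGroup Y] [NormedSpace ℂ Y] (e : ℕ → Y) (ε₀ : Y →L[ℂ] ℂ)
    (T H : CT → (Y →L[ℂ] Y)) (s : ℤ) (κ : ℂ), THS e ε₀ T H s → Adm s κ →
    ∀ A : CT → (Y →L[ℂ] Y), (∀ a, A a = T a + κ • H a) →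
    A 1 = 1 ∧
    (∀ d : ℕ → ℂ, (Summable fun n => ‖d n‖) → ∀ f : CT,
      A (cexp (psm d) * f) = A (cexp (psm d)) * A f) ∧
    (∀ k : ℤ, k < 0 → A (fourier k) (e 0) = 0)

/-- AE: even factors on the right -/
def S_AE : Prop :=
  ∀ (Y : Type) [NormedAddCommGroup Y] [NormedSpace ℂ Y] (e : ℕ → Y) (ε₀ : Y →L[ℂ] ℂ)
    (T H : CT → (Y →L[ℂ] Y)) (s : ℤ) (κ : ℂ), THS e ε₀ T H s → Adm s κ →
    ∀ A : CT → (Y →L[ℂ] Y), (∀ a, A a = T a + κ • H a) →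
    ∀ c : ℕ → ℂ, (Summable fun n => ‖c n‖) → ∀ f : CT,
      A (f * cexp (ps c + psm c)) = A f * A (cexp (ps c + psm c))

/-- AK: cokernel -/
def S_AK : Prop :=
  ∀ (Y : Type) [NormedAddCommGroup Y] [NormedSpace ℂ Y] (e : ℕ → Y) (ε₀ : Y →L[ℂ] ℂ)
    (T H : CT → (Y →L[ℂ] Y)) (s : ℤ) (κ : ℂ), THS e ε₀ T H s → Adm s κ →
    ∀ A : CT → (Y →L[ℂ] Y), (∀ a, A a = T a + κ • H a) →
    ∀ k : ℤ, 0 < k → ∃ η : Y →L[ℂ] ℂ, η ≠ 0 ∧ η.comp (A (fourier k)) = 0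

/-- ESS: the values of the symbol are in the spectrum -/
def S_ESS : Prop :=
  ∀ (Y : Type) [NormedAddCommGroup Y] [NormedSpace ℂ Y] [CompleteSpace Y] (e : ℕ → Y)
    (ε₀ : Y →L[ℂ] ℂ) (T H : CT → (Y →L[ℂ] Y)) (s : ℤ) (κ : ℂ), THS e ε₀ T H s →
    ∀ (a : CT) (z : ℂ), z ∈ resolventSet ℂ (T a + κ • H a : Y →L[ℂ] Y) → ∀ t, a t ≠ z

end Pool.Agent.R276.TH
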